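import Pool.Agent.Helper84.OB.Stmts

/-! Row SK of `Pool/Agent/Helper84/OB/Stmts.lean` (MP_ab4175_co). -/

set_option autoImplicit false

universe u

open Set Pool.Agent.Helper84.BT Pool.Agent.Helper84.OB
open scoped Matroid

namespace Pool.Agent.Helper61.OB

/-- Row SK. -/
theorem st_SK (hNU : ST_NU.{u}) : ST_SK.{u} := by
  intro α _ M X Y F hP hO hFX hne
  obtain ⟨hF, hKF, hov⟩ := hO
  have hFE : F ⊆ M.E := hF.subset_ground
  have hKE : X ∩ Y ⊆ M.E := hKF.trans hFE
  have h1 : IsCyclicFlat M (cyc M F) := isCyclicFlat_cyc hF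
  have hAF : cyc M F ⊆ F := cyc_subset
  have h2 : F = cyc M F ∪ (X ∩ Y) := by
    apply Subset.antisymm
    · intro x hx
      by_cases hxK : x ∈ X ∩ Y
      · exact Or.inr hxK
      · left
        obtain ⟨C, hC, hCc, hxC⟩ := Matroid.exists_isCircuit_of_mem_closure (hov x ⟨hx, hxK⟩)
          (by simp)
        have hCF : C ⊆ F := by
          refine hC.trans ?_
          rw [insert_sdiff_singleton, insert_eq_of_mem hx]
        have hcyc : IsCyclic M C := fun y hy => ⟨C, Subset.rfl, hCc, hy⟩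
        exact hcyc.subset_cyc hCF hxC
    · exact union_subset hAF hKF
  have h3 : cyc M (X ∩ Y) ⊆ cyc M F := isCyclic_cyc.subset_cyc (cyc_subset.trans hKF)
  refine ⟨h1, h2, h3, ?_⟩
  have e1 : cyc M F ∪ Y = F ∪ Y := by
    apply Subset.antisymm
    · exact union_subset_union_left Y hAF
    · intro x hx
      rcases hx with hx | hx
      · rw [h2] at hx
        rcases hx with hx | hx
        · exact Or.inl hx
        · exact Or.inr hx.2
      · exact Or.inr hx
  have e2 : cyc M F ∩ Y = cyc M F ∩ (X ∩ Y) := by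
    ext x
    constructor
    · rintro ⟨hx, hy⟩
      exact ⟨hx, hFX (hAF hx), hy⟩
    · rintro ⟨hx, _, hy⟩
      exact ⟨hx, hy⟩
  have n1 := hNU α M (cyc M F) F hFE Subset.rfl hAF
  have n2 := hNU α M (cyc M F ∩ (X ∩ Y)) (X ∩ Y) hKE (subset_inter h3 cyc_subset)
    inter_subset_right
  have n3 : F.ncard + (cyc M F ∩ (X ∩ Y)).ncard = (cyc M F).ncard + (X ∩ Y).ncard := by
    have := Set.ncard_union_add_ncard_inter (cyc M F) (X ∩ Y) (Set.toFinite _) (Set.toFinite _)
    rw [← h2] at this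
    exact this
  have s1 := rk_submod M (cyc M F) Y
  have s2 := rk_submod M X (F ∪ Y)
  have e3 : X ∩ (F ∪ Y) = F := by
    ext x
    constructor
    · rintro ⟨hx, hx2 | hx2⟩
      · exact hx2
      · exact hKF ⟨hx, hx2⟩
    · intro hx
      exact ⟨hFX hx, Or.inl hx⟩
  have e4 : X ∪ (F ∪ Y) = X ∪ Y := by
    rw [← union_assoc, union_eq_self_of_subset_right hFX]
  rw [e3, e4] at s2
  have hlt : F.ncard < X.ncard :=
    Set.ncard_lt_ncard (hFX.ssubset_of_ne hne) (Set.toFinite _)
  have hle : (cyc M F).ncard ≤ F.ncard := Set.ncard_le_ncard hAF (Set.toFinite _)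
  rw [e1, e2]
  rw [e1, e2] at s1
  by_contra hcon
  have hpos : rk M (cyc M F ∪ Y) + rk M (cyc M F ∩ Y) < rk M (cyc M F) + rk M Y := by
    rw [e1, e2]; omega
  have d1 := hP.dmin (cyc M F) Y h1 hP.hY hpos
  have d2 := hP.smin (cyc M F) Y h1 hP.hY
  rw [e1, e2] at d1 d2
  have d3 := d2 (by omega)
  omega

end Pool.Agent.Helper61.OB
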